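import Mathlib

/-!
Counterexample to the conjecture that the ordered Turan numbers of non-nested and of strongly
non-nested k-matchings both equal (k-1)n for n >= 2k: an ordered graph on 11 vertices with 45
edges and no non-nested 5-matching, while (5-1)*11 = 44, and an ordered graph on 9 vertices with
28 edges and no strongly non-nested 4-matching, while (4-1)*9 = 27.
-/

namespace Pool.Agent.Results.MP_19ad23_co.Counter

/-- The edges `x y` and `u v` (with `x < y`, `u < v`) cross. -/
def Crossing {n : ℕ} (x y u v : Fin n) : Prop :=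
  (x < u ∧ u < y ∧ y < v) ∨ (u < x ∧ x < v ∧ v < y)

/-- The edges `x y` and `u v` (with `x < y`, `u < v`) are separated: the intervals are disjoint. -/
def Separated {n : ℕ} (x y u v : Fin n) : Prop :=
  Set.Icc x y ∩ Set.Icc u v = ∅

/-- The edges `x y` and `u v` (with `x < y`, `u < v`) are nested: one interval contains the other. -/
def Nested {n : ℕ} (x y u v : Fin n) : Prop :=
  Set.Icc x y ⊆ Set.Icc u v ∨ Set.Icc u v ⊆ Set.Icc x y

/-- The `k` edges `x i, y i` (with `x i < y i`) form a `k`-matching of `G`. -/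
def IsMatching {n : ℕ} (G : SimpleGraph (Fin n)) (k : ℕ) (x y : Fin k → Fin n) : Prop :=
  (∀ i, x i < y i ∧ G.Adj (x i) (y i)) ∧
    ∀ i j, i ≠ j → x i ≠ x j ∧ x i ≠ y j ∧ y i ≠ x j ∧ y i ≠ y j

/-- `G` contains a non-nested `k`-matching. -/
def HasNonNested {n : ℕ} (G : SimpleGraph (Fin n)) (k : ℕ) : Prop :=
  ∃ x y : Fin k → Fin n, IsMatching G k x y ∧
    ∀ i j, i ≠ j → ¬ Nested (x i) (y i) (x j) (y j)

/-- `G` contains a strongly non-nested `k`-matching: the edges are split into parts (`c i` names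
the part of edge `i`), two edges cross exactly when they are in the same part, and edges from
different parts are separated. -/
def HasStronglyNonNested {n : ℕ} (G : SimpleGraph (Fin n)) (k : ℕ) : Prop :=
  ∃ x y : Fin k → Fin n, IsMatching G k x y ∧ ∃ c : Fin k → ℕ,
    ∀ i j, i ≠ j → (Crossing (x i) (y i) (x j) (y j) ↔ c i = c j) ∧
      (c i ≠ c j → Separated (x i) (y i) (x j) (y j))

/-- Largest number of edges of an ordered graph on `n` vertices with no non-nested `k`-matching. -/
noncomputable def exNN (n k : ℕ) : ℕ :=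
  sSup {m | ∃ G : SimpleGraph (Fin n), ¬ HasNonNested G k ∧ G.edgeSet.ncard = m}

/-- Largest number of edges of an ordered graph on `n` vertices with no strongly non-nested
`k`-matching. -/
noncomputable def exSNN (n k : ℕ) : ℕ :=
  sSup {m | ∃ G : SimpleGraph (Fin n), ¬ HasStronglyNonNested G k ∧ G.edgeSet.ncard = m}

def miss (a b : ℕ) : Bool :=
  [(0,1),(0,2),(0,4),(0,5),(1,2),(1,4),(1,5),(2,4)].contains (a, b)

def G : SimpleGraph (Fin 9) where
  Adj a b := a ≠ b ∧ miss a.val b.val = false ∧ miss b.val a.val = false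
  symm := ⟨fun _ _ h => ⟨h.1.symm, h.2.2, h.2.1⟩⟩
  loopless := ⟨fun _ h => h.1 rfl⟩

instance : DecidableRel G.Adj := fun a b =>
  inferInstanceAs (Decidable (a ≠ b ∧ miss a.val b.val = false ∧ miss b.val a.val = false))

lemma G_card : G.edgeSet.ncard = 28 := by
  have h := G.sum_degrees_eq_twice_card_edges
  have h2 : ∑ v, G.degree v = 56 := by decide +kernel
  rw [← SimpleGraph.coe_edgeFinset, Set.ncard_coe_finset]
  omega

def cr (e f : ℕ × ℕ) : Bool :=
  (e.1 < f.1 && f.1 < e.2 && e.2 < f.2) || (f.1 < e.1 && e.1 < f.2 && f.2 < e.2)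

def ok (e f : ℕ × ℕ) : Bool := cr e f || e.2 < f.1 || f.2 < e.1

def tr (e f g : ℕ × ℕ) : Bool :=
  (!(cr e f && cr f g) || cr e g) && (!(cr e f && cr e g) || cr f g) &&
    (!(cr e g && cr f g) || cr e f)

def L : List (ℕ × ℕ) :=
  ((List.range 9).flatMap fun a => (List.range 9).map fun b => (a, b)).filter
    fun p => p.1 < p.2 && !miss p.1 p.2

lemma key : ∀ e ∈ L, ∀ f ∈ L, ok e f = true → ∀ g ∈ L, ok e g = true → ok f g = true →
    tr e f g = true → ∀ h ∈ L, ok e h = true → ok f h = true → ok g h = true →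
    tr e f h = true → tr e g h = true → tr f g h = true → False := by
  have : (L.all fun e => L.all fun f => !ok e f || L.all fun g => !(ok e g && ok f g && tr e f g) ||
    L.all fun h => !(ok e h && ok f h && ok g h && tr e f h && tr e g h && tr f g h)) = true := by
    decide +kernel
  intro e he f hf h1 g hg h2 h3 h4 h hh h5 h6 h7 h8 h9 h10
  have a1 := List.all_eq_true.mp (List.all_eq_true.mp this e he) f hf
  rw [h1] at a1
  have a2 := List.all_eq_true.mp (by simpa only [Bool.not_true, Bool.false_or] using a1) g hg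
  rw [h2, h3, h4] at a2
  have a3 := List.all_eq_true.mp
    (by simpa only [Bool.and_self, Bool.not_true, Bool.false_or] using a2) h hh
  rw [h5, h6, h7, h8, h9, h10] at a3
  simp at a3

lemma memL : ∀ a b : Fin 9, a < b → G.Adj a b → (a.val, b.val) ∈ L := by decide +kernel

lemma cr_iff (x y u v : Fin 9) :
    cr (x.val, y.val) (u.val, v.val) = true ↔ Crossing x y u v := by
  simp [cr, Crossing, and_assoc]

lemma sep_imp (x y u v : Fin 9) (h1 : x < y) (h2 : u < v) (h : Separated x y u v) :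
    y.val < u.val ∨ v.val < x.val := by
  by_contra hc
  push Not at hc
  have hm : max x u ∈ Set.Icc x y ∩ Set.Icc u v := by
    refine ⟨⟨le_max_left _ _, max_le h1.le ?_⟩, ⟨le_max_right _ _, max_le ?_ h2.le⟩⟩
    · exact Fin.le_def.mpr hc.1
    · exact Fin.le_def.mpr hc.2
  rw [h] at hm
  exact hm

lemma G_free : ¬ HasStronglyNonNested G 4 := by
  rintro ⟨x, y, ⟨hm, -⟩, c, hc⟩
  have hL : ∀ i, ((x i).val, (y i).val) ∈ L := fun i => memL _ _ (hm i).1 (hm i).2
  have hcr : ∀ i j, i ≠ j →
      (cr ((x i).val, (y i).val) ((x j).val, (y j).val) = true ↔ c i = c j) :=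
    fun i j hij => (cr_iff _ _ _ _).trans (hc i j hij).1
  have hok : ∀ i j, i ≠ j → ok ((x i).val, (y i).val) ((x j).val, (y j).val) = true := by
    intro i j hij
    by_cases h : c i = c j
    · simp [ok, (hcr i j hij).mpr h]
    · rcases sep_imp _ _ _ _ (hm i).1 (hm j).1 ((hc i j hij).2 h) with h' | h'
      · simp only [ok, Bool.or_eq_true, decide_eq_true_eq]
        exact Or.inl (Or.inr h')
      · simp only [ok, Bool.or_eq_true, decide_eq_true_eq]
        exact Or.inr h'
  have htr : ∀ i j l, i ≠ j → i ≠ l → j ≠ l →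
      tr ((x i).val, (y i).val) ((x j).val, (y j).val) ((x l).val, (y l).val) = true := by
    intro i j l h1 h2 h3
    have a1 := hcr i j h1
    have a2 := hcr i l h2
    have a3 := hcr j l h3
    unfold tr
    generalize cr ((x i).val, (y i).val) ((x j).val, (y j).val) = p at a1 ⊢
    generalize cr ((x i).val, (y i).val) ((x l).val, (y l).val) = q at a2 ⊢
    generalize cr ((x j).val, (y j).val) ((x l).val, (y l).val) = r at a3 ⊢
    cases p <;> cases q <;> cases r <;> simp at a1 a2 a3 ⊢ <;> omega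
  exact key _ (hL 0) _ (hL 1) (hok 0 1 (by decide)) _ (hL 2) (hok 0 2 (by decide))
    (hok 1 2 (by decide)) (htr 0 1 2 (by decide) (by decide) (by decide)) _ (hL 3)
    (hok 0 3 (by decide)) (hok 1 3 (by decide)) (hok 2 3 (by decide))
    (htr 0 1 3 (by decide) (by decide) (by decide))
    (htr 0 2 3 (by decide) (by decide) (by decide))
    (htr 1 2 3 (by decide) (by decide) (by decide))

lemma bound : 28 ≤ exSNN 9 4 := by
  refine le_csSup ⟨(Set.univ : Set (Sym2 (Fin 9))).ncard, ?_⟩ ⟨G, G_free, G_card⟩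
  rintro m ⟨H, -, rfl⟩
  exact Set.ncard_le_ncard (Set.subset_univ _)

def miss2 (a b : ℕ) : Bool :=
  [(0,1),(0,2),(0,3),(2,7),(2,8),(3,7),(3,8),(7,10),(8,10),(9,10)].contains (a, b)

def G2 : SimpleGraph (Fin 11) where
  Adj a b := a ≠ b ∧ miss2 a.val b.val = false ∧ miss2 b.val a.val = false
  symm := ⟨fun _ _ h => ⟨h.1.symm, h.2.2, h.2.1⟩⟩
  loopless := ⟨fun _ h => h.1 rfl⟩

instance : DecidableRel G2.Adj := fun a b =>
  inferInstanceAs (Decidable (a ≠ b ∧ miss2 a.val b.val = false ∧ miss2 b.val a.val = false))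

lemma G2_card : G2.edgeSet.ncard = 45 := by
  have h := G2.sum_degrees_eq_twice_card_edges
  have h2 : ∑ v, G2.degree v = 90 := by decide +kernel
  rw [← SimpleGraph.coe_edgeFinset, Set.ncard_coe_finset]
  omega

def ok2 (e f : ℕ × ℕ) : Bool :=
  ((e.1 < f.1 && e.2 < f.2) || (f.1 < e.1 && f.2 < e.2)) && e.1 != f.2 && e.2 != f.1

def free : ℕ → List (ℕ × ℕ) → Bool
  | 0, _ => false
  | k + 1, M => M.all fun e => free k (M.filter (ok2 e))

lemma free_spec : ∀ (k : ℕ) (M : List (ℕ × ℕ)) (f : Fin k → ℕ × ℕ), (∀ i, f i ∈ M) →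
    (∀ i j, i ≠ j → ok2 (f i) (f j) = true) → free k M = false
  | 0, _, _, _, _ => rfl
  | k + 1, M, f, h1, h2 => by
    have ih := free_spec k (M.filter (ok2 (f 0))) (fun i => f i.succ)
      (fun i => List.mem_filter.mpr ⟨h1 _, h2 _ _ (Fin.succ_ne_zero i).symm⟩)
      (fun i j hij => h2 _ _ (fun h => hij (Fin.succ_injective _ h)))
    by_contra hc
    have hc2 : free (k + 1) M = true := by simpa using hc
    have h3 := List.all_eq_true.mp hc2 (f 0) (h1 0)
    rw [ih] at h3
    exact Bool.false_ne_true h3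

def L2 : List (ℕ × ℕ) :=
  ((List.range 11).flatMap fun a => (List.range 11).map fun b => (a, b)).filter
    fun p => p.1 < p.2 && !miss2 p.1 p.2

lemma key2 : free 5 L2 = true := by decide +kernel

lemma memL2 : ∀ a b : Fin 11, a < b → G2.Adj a b → (a.val, b.val) ∈ L2 := by decide +kernel

lemma G2_free : ¬ HasNonNested G2 5 := by
  rintro ⟨x, y, ⟨hm, hd⟩, hn⟩
  have h := free_spec 5 L2 (fun i => ((x i).val, (y i).val))
    (fun i => memL2 _ _ (hm i).1 (hm i).2) (by
      intro i j hij
      have a1 : ¬ (x j ≤ x i ∧ y i ≤ y j) := fun h =>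
        hn i j hij (Or.inl (Set.Icc_subset_Icc h.1 h.2))
      have a2 : ¬ (x i ≤ x j ∧ y j ≤ y i) := fun h =>
        hn i j hij (Or.inr (Set.Icc_subset_Icc h.1 h.2))
      obtain ⟨b1, b2, b3, b4⟩ := hd i j hij
      have c1 : (x i).val ≠ (x j).val := fun h => b1 (Fin.ext h)
      have c2 : (x i).val ≠ (y j).val := fun h => b2 (Fin.ext h)
      have c3 : (y i).val ≠ (x j).val := fun h => b3 (Fin.ext h)
      have c4 : (y i).val ≠ (y j).val := fun h => b4 (Fin.ext h)
      simp only [Fin.le_def] at a1 a2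
      simp only [ok2, Bool.and_eq_true, Bool.or_eq_true, decide_eq_true_eq, bne_iff_ne, ne_eq]
      refine ⟨⟨?_, c2⟩, c3⟩
      omega)
  rw [key2] at h
  exact Bool.false_ne_true h.symm

lemma bound2 : 45 ≤ exNN 11 5 := by
  refine le_csSup ⟨(Set.univ : Set (Sym2 (Fin 11))).ncard, ?_⟩ ⟨G2, G2_free, G2_card⟩
  rintro m ⟨H, -, rfl⟩
  exact Set.ncard_le_ncard (Set.subset_univ _)

theorem result :
    (5 - 1) * 11 < exNN 11 5 ∧ (4 - 1) * 9 < exSNN 9 4 ∧
    (¬ ∀ n k : ℕ, 0 < n → 0 < k → 2 * k ≤ n → exNN n k = (k - 1) * n) ∧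
    (¬ ∀ n k : ℕ, 0 < n → 0 < k → 2 * k ≤ n → exSNN n k = (k - 1) * n) ∧
    ¬ ∀ n k : ℕ, 0 < n → 0 < k → 2 * k ≤ n →
      exNN n k = exSNN n k ∧ exSNN n k = (k - 1) * n := by
  have h2 := bound
  have h3 := bound2
  refine ⟨by omega, by omega, fun h => ?_, fun h => ?_, fun h => ?_⟩
  · have h1 := h 11 5 (by norm_num) (by norm_num) (by norm_num)
    omega
  · have h1 := h 9 4 (by norm_num) (by norm_num) (by norm_num)
    omega
  · have h1 := (h 9 4 (by norm_num) (by norm_num) (by norm_num)).2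
    omega

end Pool.Agent.Results.MP_19ad23_co.Counter
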